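import Mathlib
import Pool.Agent.MP_8c5ed8_co.Defs

-- part MP_8c5ed8_co.Count
section

namespace Pool.Agent.MP_8c5ed8_co

open Finset

/-- partitions of `k` as multisets -/
noncomputable def par (k : ℕ) : Finset (Multiset ℕ) :=
  (Finset.univ : Finset (Nat.Partition k)).image (fun p => p.parts)

lemma mem_par {k : ℕ} {μ : Multiset ℕ} : μ ∈ par k ↔ (∀ i ∈ μ, 0 < i) ∧ μ.sum = k := by
  unfold par
  simp only [mem_image, mem_univ, true_and]
  constructor
  · rintro ⟨p, rfl⟩
    exact ⟨fun i hi => p.parts_pos hi, p.parts_sum⟩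
  · rintro ⟨h1, h2⟩
    exact ⟨⟨μ, fun {i} hi => h1 i hi, h2⟩, rfl⟩

lemma card_par (k : ℕ) : (par k).card = Nat.card (Nat.Partition k) := by
  unfold par
  rw [card_image_of_injective _ (fun p q h => Nat.Partition.ext h)]
  simp

/-- partitions of size at most `n` as multisets -/
noncomputable def Par (n : ℕ) : Finset (Multiset ℕ) := (Finset.range (n + 1)).biUnion par

lemma mem_Par {n : ℕ} {μ : Multiset ℕ} : μ ∈ Par n ↔ (∀ i ∈ μ, 0 < i) ∧ μ.sum ≤ n := by
  unfold Par
  simp only [mem_biUnion, mem_range, mem_par]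
  constructor
  · rintro ⟨k, hk, h1, h2⟩
    exact ⟨h1, by omega⟩
  · rintro ⟨h1, h2⟩
    exact ⟨μ.sum, by omega, h1, rfl⟩

lemma card_filter_Par (n : ℕ) (Q : Multiset ℕ → Prop) [DecidablePred Q] :
    ((Par n).filter Q).card = ∑ k ∈ range (n + 1), ((par k).filter Q).card := by
  unfold Par
  rw [filter_biUnion, card_biUnion]
  intro a _ b _ hab
  simp only [Function.onFun]
  rw [disjoint_left]
  intro μ h1 h2
  rw [mem_filter, mem_par] at h1 h2
  exact hab (h1.1.2.symm.trans h2.1.2)

lemma card_Par (n : ℕ) : (Par n).card = ∑ k ∈ range (n + 1), Nat.card (Nat.Partition k) := by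
  have := card_filter_Par n (fun _ => True)
  simp only [filter_true] at this
  rw [this]
  exact sum_congr rfl (fun k _ => card_par k)

lemma Par_card_pos (n : ℕ) : 0 < (Par n).card :=
  card_pos.2 ⟨0, mem_Par.2 ⟨by simp, by simp⟩⟩

lemma sum_le_of_le {μ ν : Multiset ℕ} (h : μ ≤ ν) : μ.sum ≤ ν.sum := by
  obtain ⟨u, rfl⟩ := Multiset.le_iff_exists_add.1 h
  simp

/-- If the multiplicity of `d` is determined by the other parts then there are at most
`d * p n` members. -/
lemma card_le_of_determined (n d : ℕ) (hd : 0 < d) (T : Finset (Multiset ℕ)) (hT : T ⊆ Par n)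
    (hdet : ∀ μ ∈ T, ∀ ν ∈ T, μ.filter (· ≠ d) = ν.filter (· ≠ d) → μ.count d = ν.count d) :
    T.card ≤ d * (par n).card := by
  have key : T.card ≤ (range d ×ˢ par n).card := by
    refine card_le_card_of_injOn
      (fun μ => ((n - (μ.filter (· ≠ d)).sum) % d,
        μ.filter (· ≠ d) + Multiset.replicate ((n - (μ.filter (· ≠ d)).sum) / d) d
          + Multiset.replicate ((n - (μ.filter (· ≠ d)).sum) % d) 1)) ?_ ?_
    · intro μ hμ
      have h := mem_Par.1 (hT hμ)
      have hle : (μ.filter (· ≠ d)).sum ≤ n :=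
        le_trans (sum_le_of_le (Multiset.filter_le _ _)) h.2
      simp only [coe_product, Set.mem_prod, mem_coe, mem_range, mem_par]
      refine ⟨Nat.mod_lt _ hd, ?_, ?_⟩
      · intro i hi
        simp only [Multiset.mem_add, Multiset.mem_filter, Multiset.mem_replicate] at hi
        rcases hi with (hi | hi) | hi
        · exact h.1 i hi.1
        · omega
        · omega
      · simp only [Multiset.sum_add, Multiset.sum_replicate, smul_eq_mul, mul_one]
        have := Nat.div_add_mod' (n - (μ.filter (· ≠ d)).sum) d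
        omega
    · intro μ hμ ν hν h
      simp only [Prod.mk.injEq] at h
      obtain ⟨h1, h2⟩ := h
      rw [h1] at h2
      have h3 := add_right_cancel h2
      have h4 : μ.filter (· ≠ d) = ν.filter (· ≠ d) := by
        ext a
        by_cases ha : a = d
        · simp [ha]
        · have := congrArg (Multiset.count a) h3
          simpa [Multiset.count_filter, Multiset.count_replicate, ha, Ne.symm ha] using this
      have h5 := hdet μ hμ ν hν h4
      ext a
      by_cases ha : a = d
      · rw [ha]; exact h5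
      · have := congrArg (Multiset.count a) h4
        simpa [Multiset.count_filter, ha] using this
  simpa using key

/-- many copies of a part -/
lemma card_count_ge (n i E : ℕ) (hi : 0 < i) :
    E * ((par n).filter (fun μ => E ≤ μ.count i)).card ≤ (Par n).card := by
  have key : (range E ×ˢ (par n).filter (fun μ => E ≤ μ.count i)).card ≤ (Par n).card := by
    refine card_le_card_of_injOn (fun x => x.2 - Multiset.replicate x.1 i) ?_ ?_
    · rintro ⟨r, μ⟩ hx
      simp only [coe_product, Set.mem_prod, mem_coe, mem_range, mem_filter, mem_par] at hx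
      simp only [mem_coe, mem_Par]
      refine ⟨fun j hj => hx.2.1.1 j (Multiset.mem_of_le (Multiset.sub_le_self _ _) hj), ?_⟩
      rw [← hx.2.1.2]
      exact sum_le_of_le (Multiset.sub_le_self _ _)
    · rintro ⟨r, μ⟩ hx ⟨s, ν⟩ hy h
      simp only [coe_product, Set.mem_prod, mem_coe, mem_range, mem_filter, mem_par] at hx hy
      simp only at h
      have h1 : Multiset.replicate r i ≤ μ := Multiset.le_count_iff_replicate_le.1 (by omega)
      have h2 : Multiset.replicate s i ≤ ν := Multiset.le_count_iff_replicate_le.1 (by omega)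
      have e1 := Multiset.sub_add_cancel h1
      have e2 := Multiset.sub_add_cancel h2
      have s1 := congrArg Multiset.sum e1
      have s2 := congrArg Multiset.sum e2
      simp only [Multiset.sum_add, Multiset.sum_replicate, smul_eq_mul] at s1 s2
      rw [h] at s1
      have hrs : r = s := Nat.eq_of_mul_eq_mul_right hi (by omega)
      subst hrs
      rw [h] at e1
      exact Prod.ext rfl (e1.symm.trans e2)
  simpa using key

open Classical in
/-- few ones and a large part -/
lemma card_large_part (n E L : ℕ) (hL : 2 ≤ L) :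
    L * ((par n).filter (fun μ => μ.count 1 < E ∧ ∃ s ∈ μ, L ≤ s)).card
      ≤ E * (Par n).card := by
  classical
  have hex : ∀ μ : Multiset ℕ, ∃ s, (∃ s ∈ μ, L ≤ s) → (s ∈ μ ∧ L ≤ s) := by
    intro μ
    by_cases h : ∃ s ∈ μ, L ≤ s
    · obtain ⟨s, hs⟩ := h
      exact ⟨s, fun _ => hs⟩
    · exact ⟨0, fun h' => absurd h' h⟩
  choose f hf using hex
  have key : (range L ×ˢ (par n).filter (fun μ => μ.count 1 < E ∧ ∃ s ∈ μ, L ≤ s)).card
      ≤ (range E ×ˢ Par n).card := by
    refine card_le_card_of_injOn
      (fun x => (x.2.count 1, x.2.erase (f x.2) + Multiset.replicate x.1 1)) ?_ ?_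
    · rintro ⟨r, μ⟩ hx
      simp only [coe_product, Set.mem_prod, mem_coe, mem_range, mem_filter, mem_par] at hx
      simp only [coe_product, Set.mem_prod, mem_coe, mem_range, mem_Par]
      obtain ⟨hr, ⟨hpos, hsum⟩, hc, hs⟩ := hx
      obtain ⟨hm, hLs⟩ := hf μ hs
      refine ⟨hc, ?_, ?_⟩
      · intro j hj
        simp only [Multiset.mem_add, Multiset.mem_replicate] at hj
        rcases hj with hj | hj
        · exact hpos j (Multiset.mem_of_mem_erase hj)
        · omega
      · have := congrArg Multiset.sum (Multiset.cons_erase hm)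
        simp only [Multiset.sum_cons] at this
        simp only [Multiset.sum_add, Multiset.sum_replicate, smul_eq_mul]
        omega
    · rintro ⟨r, μ⟩ hx ⟨s, ν⟩ hy h
      simp only [coe_product, Set.mem_prod, mem_coe, mem_range, mem_filter, mem_par] at hx hy
      simp only [Prod.mk.injEq] at h
      obtain ⟨hr, ⟨hpos, hsum⟩, hc, hs⟩ := hx
      obtain ⟨hr', ⟨hpos', hsum'⟩, hc', hs'⟩ := hy
      obtain ⟨hm, hLs⟩ := hf μ hs
      obtain ⟨hm', hLs'⟩ := hf ν hs'
      obtain ⟨h1, h2⟩ := h
      have c1 := congrArg (Multiset.count 1) h2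
      have n1 : (1 : ℕ) ≠ f μ := by omega
      have n2 : (1 : ℕ) ≠ f ν := by omega
      simp only [Multiset.count_add, Multiset.count_replicate_self,
        Multiset.count_erase_of_ne n1, Multiset.count_erase_of_ne n2] at c1
      have hrs : r = s := by omega
      subst hrs
      have h3 := add_right_cancel h2
      have e1 := Multiset.cons_erase hm
      have e2 := Multiset.cons_erase hm'
      have s1 := congrArg Multiset.sum e1
      have s2 := congrArg Multiset.sum e2
      simp only [Multiset.sum_cons] at s1 s2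
      rw [h3] at s1
      have hff : f μ = f ν := by omega
      rw [h3, hff] at e1
      exact Prod.ext rfl (e1.symm.trans e2)
  simpa using key

lemma sum_lt_of_small (μ : Multiset ℕ) (L M : ℕ) (h1 : ∀ s ∈ μ, s < L)
    (h2 : ∀ i < L, 0 < i → μ.count i < M) (hpos : ∀ i ∈ μ, 0 < i) : μ.sum ≤ L * (L * M) := by
  have hsub : μ.toFinset ⊆ range L := by
    intro s hs
    exact mem_range.2 (h1 s (Multiset.mem_toFinset.1 hs))
  rw [Finset.sum_multiset_count]
  calc ∑ m ∈ μ.toFinset, μ.count m • m ≤ ∑ m ∈ μ.toFinset, L * M := by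
        refine sum_le_sum (fun i hi => ?_)
        have hi' := Multiset.mem_toFinset.1 hi
        have a1 := h1 i hi'
        have a2 := h2 i a1 (hpos i hi')
        rw [smul_eq_mul, mul_comm]
        exact Nat.mul_le_mul a1.le a2.le
    _ ≤ ∑ m ∈ range L, L * M := sum_le_sum_of_subset hsub
    _ = L * (L * M) := by simp

open Classical in
/-- `p n = o (P n)` in finite form -/
lemma par_small (E : ℕ) (hE : 2 ≤ E) (n : ℕ) (hn : E * E * (E * E * (E * E * E)) < n) :
    E * (par n).card ≤ 3 * (Par n).card := by
  classical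
  set L := E * E with hL
  have hL2 : 2 ≤ L := by nlinarith
  have hcover : par n ⊆ (par n).filter (fun μ => E ≤ μ.count 1)
      ∪ (par n).filter (fun μ => μ.count 1 < E ∧ ∃ s ∈ μ, L ≤ s)
      ∪ (Ioo 0 L).biUnion (fun i => (par n).filter (fun μ => L * E ≤ μ.count i)) := by
    intro μ hμ
    have h := mem_par.1 hμ
    simp only [mem_union, mem_filter, mem_biUnion, mem_Ioo, hμ, true_and]
    by_contra hcon
    push Not at hcon
    obtain ⟨⟨a1, a2⟩, a3⟩ := hcon
    have := sum_lt_of_small μ L (L * E) (fun s hs => a2 a1 s hs)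
      (fun i hi hi0 => a3 i ⟨hi0, hi⟩) h.1
    omega
  have c1 := card_count_ge n 1 E one_pos
  have c2 := card_large_part n E L hL2
  have c3 : E * ((Ioo 0 L).biUnion
      (fun i => (par n).filter (fun μ => L * E ≤ μ.count i))).card ≤ (Par n).card := by
    have b1 : ((Ioo 0 L).biUnion (fun i => (par n).filter (fun μ => L * E ≤ μ.count i))).card
        ≤ ∑ i ∈ Ioo 0 L, ((par n).filter (fun μ => L * E ≤ μ.count i)).card := card_biUnion_le
    have b2 : L * E * ∑ i ∈ Ioo 0 L, ((par n).filter (fun μ => L * E ≤ μ.count i)).card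
        ≤ L * (Par n).card := by
      rw [mul_sum]
      calc ∑ i ∈ Ioo 0 L, L * E * ((par n).filter (fun μ => L * E ≤ μ.count i)).card
          ≤ ∑ i ∈ Ioo 0 L, (Par n).card :=
            sum_le_sum (fun i hi => card_count_ge n i (L * E) (mem_Ioo.1 hi).1)
        _ = (L - 1) * (Par n).card := by simp
        _ ≤ L * (Par n).card := Nat.mul_le_mul_right _ (Nat.sub_le _ _)
    have b3 : L * (E * ((Ioo 0 L).biUnion
        (fun i => (par n).filter (fun μ => L * E ≤ μ.count i))).card) ≤ L * (Par n).card := by
      calc _ = L * E * ((Ioo 0 L).biUnion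
          (fun i => (par n).filter (fun μ => L * E ≤ μ.count i))).card := by ring
        _ ≤ _ := Nat.mul_le_mul_left _ b1
        _ ≤ _ := b2
    exact Nat.le_of_mul_le_mul_left b3 (by omega)
  have c2' : E * ((par n).filter (fun μ => μ.count 1 < E ∧ ∃ s ∈ μ, L ≤ s)).card
      ≤ (Par n).card := by
    have : E * (E * ((par n).filter (fun μ => μ.count 1 < E ∧ ∃ s ∈ μ, L ≤ s)).card)
        ≤ E * (Par n).card := by
      rw [← mul_assoc]; exact c2
    exact Nat.le_of_mul_le_mul_left this (by omega)
  have c4 := card_le_card hcover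
  have c5 := card_union_le ((par n).filter (fun μ => E ≤ μ.count 1)
      ∪ (par n).filter (fun μ => μ.count 1 < E ∧ ∃ s ∈ μ, L ≤ s))
      ((Ioo 0 L).biUnion (fun i => (par n).filter (fun μ => L * E ≤ μ.count i)))
  have c6 := card_union_le ((par n).filter (fun μ => E ≤ μ.count 1))
      ((par n).filter (fun μ => μ.count 1 < E ∧ ∃ s ∈ μ, L ≤ s))
  have c7 := Nat.mul_le_mul_left E (c4.trans (c5.trans (Nat.add_le_add_right c6 _)))
  rw [mul_add, mul_add] at c7
  omega

/-- number of parts in the interval from `2` to `j` -/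
def mid (μ : Multiset ℕ) (j : ℕ) : ℕ := (μ.filter (fun i => 2 ≤ i ∧ i ≤ j)).card

lemma mid_mono (μ : Multiset ℕ) {i j : ℕ} (h : i ≤ j) : mid μ i ≤ mid μ j := by
  unfold mid
  refine Multiset.card_le_card (Multiset.monotone_filter_right _ ?_)
  intro a ha
  exact ⟨ha.1, ha.2.trans h⟩

lemma mid_filter (μ : Multiset ℕ) (j : ℕ) : mid (μ.filter (· ≠ 1)) j = mid μ j := by
  unfold mid
  rw [Multiset.filter_filter]
  congr 1
  refine Multiset.filter_congr (fun x _ => ?_)
  omega

/-- parts in `[2, J)` -/
def low (J : ℕ) (μ : Multiset ℕ) : Multiset ℕ := μ.filter (fun i => 2 ≤ i ∧ i < J)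
/-- parts above `J` -/
def high (J : ℕ) (μ : Multiset ℕ) : Multiset ℕ := μ.filter (fun i => J < i)

lemma decomp (J : ℕ) (hJ : 2 ≤ J) (μ : Multiset ℕ) (hpos : ∀ i ∈ μ, 0 < i) :
    μ = Multiset.replicate (μ.count 1) 1 + low J μ + Multiset.replicate (μ.count J) J
      + high J μ := by
  ext a
  unfold low high
  simp only [Multiset.count_add, Multiset.count_replicate, Multiset.count_filter]
  have h0 : μ.count 0 = 0 := Multiset.count_eq_zero.2 (fun h => absurd (hpos 0 h) (by omega))
  split_ifs <;> first | omega | (subst_vars; omega) | (obtain rfl : a = 0 := (by omega); omega)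

lemma mid_eq (J : ℕ) (hJ : 2 ≤ J) (μ : Multiset ℕ) :
    mid μ J = (low J μ).card + μ.count J := by
  have : μ.filter (fun i => 2 ≤ i ∧ i ≤ J) = low J μ + Multiset.replicate (μ.count J) J := by
    ext a
    unfold low
    simp only [Multiset.count_add, Multiset.count_replicate, Multiset.count_filter]
    split_ifs <;> first | omega | (subst_vars; omega)
  unfold mid
  rw [this]
  simp

/-- the shifted partition -/
def shift (J : ℕ) (μ : Multiset ℕ) : Multiset ℕ :=
  Multiset.replicate (μ.count 1 - mid μ J) 1 + (low J μ).map (· + 1) + high J μ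

lemma shift_pos (J : ℕ) (μ : Multiset ℕ) : ∀ i ∈ shift J μ, 0 < i := by
  intro i hi
  unfold shift low high at hi
  simp only [Multiset.mem_add, Multiset.mem_replicate, Multiset.mem_map,
    Multiset.mem_filter] at hi
  rcases hi with (hi | ⟨a, _, rfl⟩) | hi <;> omega

lemma shift_sum (J : ℕ) (hJ : 2 ≤ J) (μ : Multiset ℕ) (hpos : ∀ i ∈ μ, 0 < i)
    (h : mid μ J ≤ μ.count 1) : (shift J μ).sum + μ.count J * (J + 1) = μ.sum := by
  have h1 := congrArg Multiset.sum (decomp J hJ μ hpos)
  have h2 := mid_eq J hJ μ
  unfold shift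
  simp only [Multiset.sum_add, Multiset.sum_replicate, smul_eq_mul, mul_one] at h1 ⊢
  rw [Multiset.sum_map_add]
  simp only [Multiset.map_id', Multiset.map_const', Multiset.sum_replicate, smul_eq_mul, mul_one]
  rw [mul_add]
  omega

lemma count_map_succ (ν : Multiset ℕ) (a : ℕ) : (ν.map (· + 1)).count (a + 1) = ν.count a :=
  Multiset.count_map_eq_count' _ _ (add_left_injective 1) a

lemma shift_count_two (J : ℕ) (hJ : 2 ≤ J) (μ : Multiset ℕ) : (shift J μ).count 2 = 0 := by
  unfold shift
  have := count_map_succ (low J μ) 1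
  simp only [Multiset.count_add, Multiset.count_replicate]
  rw [this]
  unfold low high
  simp only [Multiset.count_filter]
  split_ifs <;> omega

lemma shift_count_one (J : ℕ) (hJ : 2 ≤ J) (μ : Multiset ℕ) :
    (shift J μ).count 1 = μ.count 1 - mid μ J := by
  unfold shift
  have := count_map_succ (low J μ) 0
  simp only [Multiset.count_add, Multiset.count_replicate]
  rw [this]
  unfold low high
  simp only [Multiset.count_filter]
  split_ifs <;> omega

lemma shift_count_low (J : ℕ) (μ : Multiset ℕ) (a : ℕ) (h2 : 2 ≤ a) (ha : a < J) :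
    (shift J μ).count (a + 1) = μ.count a := by
  unfold shift
  have := count_map_succ (low J μ) a
  simp only [Multiset.count_add, Multiset.count_replicate]
  rw [this]
  unfold low high
  simp only [Multiset.count_filter]
  split_ifs <;> omega

lemma shift_count_high (J : ℕ) (hJ : 2 ≤ J) (μ : Multiset ℕ) (a : ℕ) (ha : J ≤ a) :
    (shift J μ).count (a + 1) = μ.count (a + 1) := by
  unfold shift
  have := count_map_succ (low J μ) a
  simp only [Multiset.count_add, Multiset.count_replicate]
  rw [this]
  unfold low high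
  simp only [Multiset.count_filter]
  split_ifs <;> omega

lemma shift_inj (J : ℕ) (hJ : 2 ≤ J) (μ ν : Multiset ℕ) (hμ : ∀ i ∈ μ, 0 < i)
    (hν : ∀ i ∈ ν, 0 < i) (h1 : mid μ J ≤ μ.count 1) (h2 : mid ν J ≤ ν.count 1)
    (hs : shift J μ = shift J ν) (hk : μ.count J = ν.count J) : μ = ν := by
  have hlow : low J μ = low J ν := by
    ext a
    unfold low
    simp only [Multiset.count_filter]
    split_ifs with h
    · rw [← shift_count_low J μ a h.1 h.2, ← shift_count_low J ν a h.1 h.2, hs]
    · rfl
  have hhigh : high J μ = high J ν := by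
    ext a
    unfold high
    simp only [Multiset.count_filter]
    split_ifs with h
    · obtain ⟨b, rfl⟩ : ∃ b, a = b + 1 := ⟨a - 1, by omega⟩
      rw [← shift_count_high J hJ μ b (by omega), ← shift_count_high J hJ ν b (by omega), hs]
    · rfl
  have hone : μ.count 1 = ν.count 1 := by
    have a1 := shift_count_one J hJ μ
    have a2 := shift_count_one J hJ ν
    have a3 := mid_eq J hJ μ
    have a4 := mid_eq J hJ ν
    rw [hs] at a1
    rw [hlow, hk] at a3
    omega
  rw [decomp J hJ μ hμ, decomp J hJ ν hν, hlow, hhigh, hone, hk]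

lemma card_many_ones_pos (n J : ℕ) (hJ : 2 ≤ J) :
    (J + 1) * ((Par n).filter (fun μ => mid μ J ≤ μ.count 1 ∧ 0 < μ.count J)).card
      ≤ 2 * (Par n).card := by
  have key : (range (J + 1) ×ˢ (Par n).filter
      (fun μ => mid μ J ≤ μ.count 1 ∧ 0 < μ.count J)).card ≤ (range 2 ×ˢ Par n).card := by
    refine card_le_card_of_injOn
      (fun x => ((n - x.2.sum) % 2, shift J x.2 + Multiset.replicate ((n - x.2.sum) / 2) 2
        + Multiset.replicate x.1 1)) ?_ ?_
    · rintro ⟨r, μ⟩ hx
      simp only [coe_product, Set.mem_prod, mem_coe, mem_range, mem_filter, mem_Par] at hx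
      simp only [coe_product, Set.mem_prod, mem_coe, mem_range, mem_Par]
      obtain ⟨hr, ⟨hpos, hsum⟩, hc, hk⟩ := hx
      refine ⟨Nat.mod_lt _ (by omega), ?_, ?_⟩
      · intro i hi
        simp only [Multiset.mem_add, Multiset.mem_replicate] at hi
        rcases hi with (hi | hi) | hi
        · exact shift_pos J μ i hi
        · omega
        · omega
      · have a1 := shift_sum J hJ μ hpos hc
        have a2 : J + 1 ≤ μ.count J * (J + 1) := Nat.le_mul_of_pos_left _ hk
        simp only [Multiset.sum_add, Multiset.sum_replicate, smul_eq_mul]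
        omega
    · rintro ⟨r, μ⟩ hx ⟨s, ν⟩ hy h
      simp only [coe_product, Set.mem_prod, mem_coe, mem_range, mem_filter, mem_Par] at hx hy
      simp only [Prod.mk.injEq] at h
      obtain ⟨hr, ⟨hpos, hsum⟩, hc, hk⟩ := hx
      obtain ⟨hr', ⟨hpos', hsum'⟩, hc', hk'⟩ := hy
      obtain ⟨h1, h2⟩ := h
      have a1 := shift_sum J hJ μ hpos hc
      have a2 := shift_sum J hJ ν hpos' hc'
      have s1 := congrArg Multiset.sum h2
      simp only [Multiset.sum_add, Multiset.sum_replicate, smul_eq_mul] at s1
      have hkk : μ.count J = ν.count J := by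
        by_contra hne
        rcases Nat.lt_or_gt_of_ne hne with hlt | hlt
        · have : (μ.count J + 1) * (J + 1) ≤ ν.count J * (J + 1) := Nat.mul_le_mul_right _ hlt
          rw [add_mul] at this
          omega
        · have : (ν.count J + 1) * (J + 1) ≤ μ.count J * (J + 1) := Nat.mul_le_mul_right _ hlt
          rw [add_mul] at this
          omega
      rw [hkk] at a1
      have hrs : r = s := by omega
      subst hrs
      have h3 := add_right_cancel h2
      have c2 := congrArg (Multiset.count 2) h3
      simp only [Multiset.count_add, Multiset.count_replicate_self, shift_count_two J hJ,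
        zero_add] at c2
      rw [c2] at h3
      have h4 := add_right_cancel h3
      exact Prod.ext rfl (shift_inj J hJ μ ν hpos hpos' hc hc' h4 hkk)
  simpa using key

open Classical in
/-- the main counting bound -/
lemma card_bad (n J : ℕ) (hJ : 2 ≤ J) :
    (J + 1) * ((Par n).filter (fun μ => ∃ j, 2 ≤ j ∧ μ.count 1 + 2 = mid μ j + j)).card
      ≤ (J + 1) * (2 * J * (par n).card) + 2 * (Par n).card := by
  have hcover : (Par n).filter (fun μ => ∃ j, 2 ≤ j ∧ μ.count 1 + 2 = mid μ j + j)
      ⊆ (range J).biUnion (fun j => (Par n).filter (fun μ => μ.count 1 + 2 = mid μ j + j))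
        ∪ (Par n).filter (fun μ => μ.count J = 0)
        ∪ (Par n).filter (fun μ => mid μ J ≤ μ.count 1 ∧ 0 < μ.count J) := by
    intro μ hμ
    rw [mem_filter] at hμ
    obtain ⟨hμ, j, hj2, hj⟩ := hμ
    simp only [mem_union, mem_biUnion, mem_filter, mem_range, hμ, true_and]
    by_cases h1 : j < J
    · exact Or.inl (Or.inl ⟨j, h1, hj⟩)
    · by_cases h2 : μ.count J = 0
      · exact Or.inl (Or.inr h2)
      · have := mid_mono μ (show J ≤ j by omega)
        exact Or.inr ⟨by omega, by omega⟩
  have c1 : ((range J).biUnion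
      (fun j => (Par n).filter (fun μ => μ.count 1 + 2 = mid μ j + j))).card
      ≤ J * (par n).card := by
    refine card_biUnion_le.trans ?_
    calc ∑ j ∈ range J, ((Par n).filter (fun μ => μ.count 1 + 2 = mid μ j + j)).card
        ≤ ∑ j ∈ range J, (par n).card := by
          refine sum_le_sum (fun j _ => ?_)
          have := card_le_of_determined n 1 one_pos
            ((Par n).filter (fun μ => μ.count 1 + 2 = mid μ j + j)) (filter_subset _ _) (by
              intro μ hμ ν hν h
              have a1 := (mem_filter.1 hμ).2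
              have a2 := (mem_filter.1 hν).2
              have a3 := mid_filter μ j
              have a4 := mid_filter ν j
              rw [h] at a3
              omega)
          simpa using this
      _ = J * (par n).card := by simp
  have c2 : ((Par n).filter (fun μ => μ.count J = 0)).card ≤ J * (par n).card :=
    card_le_of_determined n J (by omega) _ (filter_subset _ _) (by
      intro μ hμ ν hν _
      rw [(mem_filter.1 hμ).2, (mem_filter.1 hν).2])
  have c3 := card_many_ones_pos n J hJ
  have c4 := card_le_card hcover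
  have c5 := card_union_le
    ((range J).biUnion (fun j => (Par n).filter (fun μ => μ.count 1 + 2 = mid μ j + j))
        ∪ (Par n).filter (fun μ => μ.count J = 0))
    ((Par n).filter (fun μ => mid μ J ≤ μ.count 1 ∧ 0 < μ.count J))
  have c6 := card_union_le
    ((range J).biUnion (fun j => (Par n).filter (fun μ => μ.count 1 + 2 = mid μ j + j)))
    ((Par n).filter (fun μ => μ.count J = 0))
  have c7 : ((Par n).filter (fun μ => ∃ j, 2 ≤ j ∧ μ.count 1 + 2 = mid μ j + j)).card
      ≤ 2 * J * (par n).card
        + ((Par n).filter (fun μ => mid μ J ≤ μ.count 1 ∧ 0 < μ.count J)).card := by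
    have : 2 * J * (par n).card = J * (par n).card + J * (par n).card := by ring
    omega
  have c8 := Nat.mul_le_mul_left (J + 1) c7
  rw [mul_add] at c8
  omega

end Pool.Agent.MP_8c5ed8_co

end

-- part MP_8c5ed8_co.Semigroup
section

namespace Pool.Agent.MP_8c5ed8_co

open Finset

open Classical in
lemma ncard_below (S : Set ℕ) (g : ℕ) :
    {s : ℕ | s ∈ S ∧ s < g}.ncard = ((range g).filter (· ∈ S)).card := by
  rw [← Set.ncard_coe_finset]
  congr 1
  ext s
  simp [and_comm]

open Classical in
/-- The key consequence of `2m ∈ S`. -/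
lemma semigroup_cond (S : Set ℕ) (hS : IsNumericalSemigroup S) :
    ∃ j, 2 ≤ j ∧ (phiParts S hS.finite_gaps).count 1 + 2 = mid (phiParts S hS.finite_gaps) j + j := by
  have hex : ∃ m, m ∈ S ∧ 0 < m := by
    have h1 : (S : Set ℕ).Infinite := Set.infinite_of_finite_compl hS.finite_gaps
    obtain ⟨m, hm, hm0⟩ := h1.exists_gt 0
    exact ⟨m, hm, hm0⟩
  set m := Nat.find hex with hm
  have hmS : m ∈ S := (Nat.find_spec hex).1
  have hm0 : 0 < m := (Nat.find_spec hex).2
  have hmin : ∀ s ∈ S, s < m → s = 0 := by
    intro s hs hlt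
    by_contra h0
    exact Nat.find_min hex hlt ⟨hs, Nat.pos_of_ne_zero h0⟩
  have h2m : m + m ∈ S := hS.add_mem m hmS m hmS
  set f : ℕ → ℕ := fun g => ((range g).filter (· ∈ S)).card with hf
  have fmono : ∀ a b, a ≤ b → f a ≤ f b := by
    intro a b hab
    exact card_le_card (filter_subset_filter _ (range_mono hab))
  have fstep : ∀ a ∈ S, f (a + 1) = f a + 1 := by
    intro a ha
    simp only [hf, range_add_one, filter_insert, ha, if_true]
    rw [card_insert_of_notMem (by simp)]
  have fm : f m = 1 := by
    have : (range m).filter (· ∈ S) = {0} := by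
      ext s
      simp only [mem_filter, mem_range, mem_singleton]
      constructor
      · rintro ⟨h1, h2⟩
        exact hmin s h2 h1
      · rintro rfl
        exact ⟨hm0, hS.zero_mem⟩
    simp [hf, this]
  have f1 : f 1 = 1 := by
    have := fstep 0 hS.zero_mem
    simpa [hf] using this
  have fm1 : f (m + 1) = 2 := by rw [fstep m hmS, fm]
  have f2m : f (m + m + 1) = f (m + m) + 1 := fstep _ h2m
  have hphi : phiParts S hS.finite_gaps = hS.finite_gaps.toFinset.val.map f := by
    unfold phiParts
    exact Multiset.map_congr rfl (fun g _ => ncard_below S g)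
  refine ⟨f (m + m), by have := fmono (m + 1) (m + m) (by omega); omega, ?_⟩
  rw [hphi]
  have hc1 : (hS.finite_gaps.toFinset.val.map f).count 1 = m - 1 := by
    rw [Multiset.count_map]
    have : hS.finite_gaps.toFinset.filter (fun a => 1 = f a) = Ioo 0 m := by
      ext g
      simp only [mem_filter, Set.Finite.mem_toFinset, Set.mem_compl_iff, mem_Ioo]
      constructor
      · rintro ⟨hg, h1⟩
        have hg0 : g ≠ 0 := fun h => hg (h ▸ hS.zero_mem)
        have hgm : g ≠ m := fun h => hg (h ▸ hmS)
        refine ⟨Nat.pos_of_ne_zero hg0, ?_⟩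
        by_contra hlt
        have := fmono (m + 1) g (by omega)
        omega
      · rintro ⟨h0, hlt⟩
        refine ⟨fun hg => by have := hmin g hg hlt; omega, ?_⟩
        have a1 := fmono 1 g h0
        have a2 := fmono g m hlt.le
        omega
    have h2 := congrArg Finset.card this
    rw [Nat.card_Ioo] at h2
    exact h2
  have hc2 : mid (hS.finite_gaps.toFinset.val.map f) (f (m + m))
      = ((Ioo m (m + m)).filter (· ∉ S)).card := by
    unfold mid
    rw [Multiset.filter_map, Multiset.card_map]
    have : hS.finite_gaps.toFinset.filter (fun a => 2 ≤ f a ∧ f a ≤ f (m + m))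
        = (Ioo m (m + m)).filter (· ∉ S) := by
      ext g
      simp only [mem_filter, Set.Finite.mem_toFinset, Set.mem_compl_iff, mem_Ioo]
      constructor
      · rintro ⟨hg, h1, h2⟩
        have hgm : g ≠ m := fun h => hg (h ▸ hmS)
        have hgm2 : g ≠ m + m := fun h => hg (h ▸ h2m)
        refine ⟨⟨?_, ?_⟩, hg⟩
        · by_contra hlt
          have := fmono g m (by omega)
          omega
        · by_contra hlt
          have := fmono (m + m + 1) g (by omega)
          omega
      · rintro ⟨⟨h1, h2⟩, hg⟩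
        have a1 := fmono (m + 1) g h1
        have a2 := fmono g (m + m) h2.le
        exact ⟨hg, by omega, a2⟩
    have h2 := congrArg Finset.card this
    exact h2
  have hc3 : f (m + m) = ((Ioo m (m + m)).filter (· ∈ S)).card + 2 := by
    have : (range (m + m)).filter (· ∈ S)
        = insert 0 (insert m ((Ioo m (m + m)).filter (· ∈ S))) := by
      ext s
      simp only [mem_filter, mem_range, mem_insert, mem_Ioo]
      constructor
      · rintro ⟨h1, h2⟩
        by_cases h3 : s < m
        · exact Or.inl (hmin s h2 h3)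
        · by_cases h4 : s = m
          · exact Or.inr (Or.inl h4)
          · exact Or.inr (Or.inr ⟨⟨by omega, h1⟩, h2⟩)
      · rintro (rfl | rfl | ⟨h1, h2⟩)
        · exact ⟨by omega, hS.zero_mem⟩
        · exact ⟨by omega, hmS⟩
        · exact ⟨h1.2, h2⟩
    simp only [hf]
    rw [this, card_insert_of_notMem, card_insert_of_notMem]
    · simp
    · simp only [mem_insert, mem_filter, mem_Ioo]
      omega
  have hc4 := card_filter_add_card_filter_not (s := Ioo m (m + m)) (fun x => x ∈ S)
  rw [hc1, hc2]
  simp only [Nat.card_Ioo] at hc4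
  omega

open Classical in
lemma numSemi_le (n : ℕ) : numSemigroupPartitionsUpTo n ≤
    ((Par n).filter (fun μ => ∃ j, 2 ≤ j ∧ μ.count 1 + 2 = mid μ j + j)).card := by
  rw [card_filter_Par]
  unfold numSemigroupPartitionsUpTo
  refine sum_le_sum (fun k _ => ?_)
  rw [← Nat.card_eq_finsetCard]
  refine Nat.card_le_card_of_injective
    (fun p : {p : Nat.Partition k // IsSemigroupPartition p} =>
      (⟨p.1.parts, ?_⟩ : {μ // μ ∈ (par k).filter
        (fun μ => ∃ j, 2 ≤ j ∧ μ.count 1 + 2 = mid μ j + j)})) ?_
  · rw [mem_filter, mem_par]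
    refine ⟨⟨fun i hi => p.1.parts_pos hi, p.1.parts_sum⟩, ?_⟩
    obtain ⟨S, hS, h⟩ := p.2
    rw [h]
    exact semigroup_cond S hS
  · intro p q h
    exact Subtype.ext (Nat.Partition.ext (congrArg Subtype.val h))

lemma final_bound (J : ℕ) (hJ : 2 ≤ J) :
    ∃ N, ∀ n ≥ N, J * numSemigroupPartitionsUpTo n ≤ 8 * numPartitionsUpTo n := by
  set E := J * J with hE
  refine ⟨E * E * (E * E * (E * E * E)) + 1, fun n hn => ?_⟩
  have h1 := par_small E (by nlinarith) n (by omega)
  have h2 := (Nat.mul_le_mul_left (J + 1) (numSemi_le n)).trans (card_bad n J hJ)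
  have h4 : numPartitionsUpTo n = (Par n).card := (card_Par n).symm
  rw [h4]
  generalize (Par n).card = P at *
  generalize (par n).card = p at *
  generalize numSemigroupPartitionsUpTo n = s at *
  have h5 : (J + 1) * (J * s) ≤ (J + 1) * (8 * P) := by
    calc (J + 1) * (J * s) = J * ((J + 1) * s) := by ring
      _ ≤ J * ((J + 1) * (2 * J * p) + 2 * P) := Nat.mul_le_mul_left _ h2
      _ = (J + 1) * 2 * (E * p) + 2 * J * P := by rw [hE]; ring
      _ ≤ (J + 1) * 2 * (3 * P) + 2 * (J + 1) * P := by
          gcongr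
          omega
      _ = (J + 1) * (8 * P) := by ring
  exact Nat.le_of_mul_le_mul_left h5 (by omega)

theorem tendsto_ratio :
    Filter.Tendsto (fun n : ℕ => (numSemigroupPartitionsUpTo n : ℝ) / (numPartitionsUpTo n : ℝ))
      Filter.atTop (nhds 0) := by
  rw [Metric.tendsto_atTop]
  intro ε hε
  obtain ⟨K, hK⟩ := exists_nat_gt (8 / ε)
  obtain ⟨N, hN⟩ := final_bound (K + 2) (by omega)
  refine ⟨N, fun n hn => ?_⟩
  have h1 := hN n hn
  have hP : 0 < numPartitionsUpTo n := by
    have h4 : numPartitionsUpTo n = (Par n).card := (card_Par n).symm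
    rw [h4]; exact Par_card_pos n
  have hP' : (0 : ℝ) < numPartitionsUpTo n := by exact_mod_cast hP
  have h2 : ((K : ℝ) + 2) * numSemigroupPartitionsUpTo n ≤ 8 * numPartitionsUpTo n := by
    exact_mod_cast h1
  rw [Real.dist_eq, sub_zero, abs_of_nonneg (by positivity), div_lt_iff₀ hP']
  rw [div_lt_iff₀ hε] at hK
  have hK2 : (0 : ℝ) < (K : ℝ) + 2 := by positivity
  by_contra hcon
  push Not at hcon
  have h3 : ((K : ℝ) + 2) * (ε * numPartitionsUpTo n) ≤ 8 * numPartitionsUpTo n :=
    (mul_le_mul_of_nonneg_left hcon hK2.le).trans h2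
  nlinarith

end Pool.Agent.MP_8c5ed8_co

end
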